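import Pool.Agent.Helper62.CS.Stmts

/-!
Project CS, row CYL: conditioning on the coordinates outside a finite set.
-/

namespace Pool.Agent.Helper80.CS

open Classical MeasureTheory Finset
open Pool.Agent.Helper62.CS

instance : IsProbabilityMeasure coin := by
  unfold coin; infer_instance

theorem coin_singleton (b : Bool) : coin {b} = (2 : ENNReal)⁻¹ := by
  rw [coin, PMF.toMeasure_apply_singleton _ _ (measurableSet_singleton _),
    PMF.uniformOfFintype_apply]
  simp

/-- The measure of a set that depends on finitely many coordinates. -/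
theorem meas_dep (E : Finset Str) (A : (Str → Bool) → Prop) (hA : Dep (E : Set Str) A) :
    randomOracle {R | A R} =
      ((univ.filter (fun b : E → Bool => A (ovr E (fun _ => false) b))).card : ENNReal) *
        ((2 : ENNReal)⁻¹) ^ E.card := by
  have h1 : {R | A R} = cylinder E {b : E → Bool | A (ovr E (fun _ => false) b)} := by
    ext R
    rw [mem_cylinder]
    apply hA
    intro x hx
    have hx' : x ∈ E := hx
    rw [ovr, dif_pos hx']
    rfl
  have hms : MeasurableSet {b : E → Bool | A (ovr E (fun _ => false) b)} :=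
    (Set.toFinite _).measurableSet
  rw [h1, randomOracle, Measure.infinitePi_cylinder _ hms]
  have h2 : {b : E → Bool | A (ovr E (fun _ => false) b)} =
      ((univ.filter (fun b : E → Bool => A (ovr E (fun _ => false) b)) : Finset (E → Bool)) :
        Set (E → Bool)) := by
    ext b; simp
  rw [h2, ← sum_measure_singleton]
  have h3 : ∀ b : E → Bool, Measure.pi (fun i : E => coin) {b} = ((2 : ENNReal)⁻¹) ^ E.card := by
    intro b
    rw [Measure.pi_singleton]
    simp only [coin_singleton, Finset.prod_const, Finset.card_univ, Fintype.card_coe]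
  rw [Finset.sum_congr rfl (fun b _ => h3 b), Finset.sum_const, nsmul_eq_mul]

/-- Overriding inside `E`. -/
noncomputable def ovE {E : Finset Str} (S : Finset Str) (b : E → Bool) (c : S → Bool) : E → Bool :=
  fun x => if h : (x : Str) ∈ S then c ⟨x, h⟩ else b x

/-- Averaging over the coordinates in `S`. -/
theorem count_avg {E S : Finset Str} (hSE : S ⊆ E) (F : (E → Bool) → ℝ) :
    (2 : ℝ) ^ S.card * ∑ b : E → Bool, F b = ∑ b : E → Bool, ∑ c : S → Bool, F (ovE S b c) := by
  have h1 : ∑ b : E → Bool, ∑ c : S → Bool, F (ovE S b c) =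
      ∑ p : (E → Bool) × (S → Bool), F (ovE S p.1 p.2) := by
    rw [Fintype.sum_prod_type]
  have h2 : (2 : ℝ) ^ S.card * ∑ b : E → Bool, F b =
      ∑ p : (E → Bool) × (S → Bool), F p.1 := by
    rw [Fintype.sum_prod_type]
    simp only [Finset.sum_const, Finset.card_univ, Fintype.card_fun, Fintype.card_bool,
      Fintype.card_coe, nsmul_eq_mul, ← Finset.mul_sum]
    push_cast
    rfl
  rw [h1, h2]
  let φ : (E → Bool) × (S → Bool) → (E → Bool) × (S → Bool) :=
    fun p => (ovE S p.1 p.2, fun x => p.1 ⟨x, hSE x.2⟩)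
  have hφ : Function.Involutive φ := by
    rintro ⟨b, c⟩
    simp only [φ, Prod.mk.injEq]
    constructor
    · funext x
      rw [ovE]
      split_ifs with h
      · rfl
      · rw [ovE, dif_neg h]
    · funext x
      simp only [ovE]
      rw [dif_pos x.2]
  symm
  exact Fintype.sum_equiv (Function.Involutive.toPerm φ hφ) _ _ (fun p => rfl)

theorem st_CYL : ST_CYL := by
  intro D S G Φ θ hθ hG hΦ hGS hcount
  obtain ⟨E, hE⟩ : ∃ E, E = D ∪ S := ⟨_, rfl⟩
  have hDE : D ⊆ E := by rw [hE]; exact Finset.subset_union_left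
  have hSE : S ⊆ E := by rw [hE]; exact Finset.subset_union_right
  have mono : ∀ {A : (Str → Bool) → Prop}, Dep (D : Set Str) A → Dep (E : Set Str) A := by
    intro A hA R R' h
    exact hA R R' (fun x hx => h x (hDE hx))
  obtain ⟨H, hH⟩ : ∃ H : (Str → Bool) → Prop, ∀ R, H R ↔ (G R ∧ Φ R) :=
    ⟨fun R => G R ∧ Φ R, fun R => Iff.rfl⟩
  have hset : {R | G R ∧ Φ R} = {R | H R} := by
    ext R; exact (hH R).symm
  have hHE : Dep (E : Set Str) H := by
    intro R R' h
    rw [hH, hH]
    exact and_congr (mono hG R R' h) (mono hΦ R R' h)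
  rw [hset, meas_dep E _ hHE, meas_dep E _ (mono hG), ← mul_assoc]
  apply mul_le_mul_left
  -- the counting inequality
  obtain ⟨z, hz⟩ : ∃ z : Str → Bool, z = fun _ => false := ⟨_, rfl⟩
  rw [← hz]
  have key : ((univ.filter (fun b : E → Bool => H (ovr E z b))).card : ℝ) ≤
      θ * ((univ.filter (fun b : E → Bool => G (ovr E z b))).card : ℝ) := by
    have e1 := count_avg hSE (fun b => if H (ovr E z b) then (1 : ℝ) else 0)
    have hov : ∀ (b : E → Bool) (c : S → Bool), ovr E z (ovE S b c) = ovr S (ovr E z b) c := by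
      intro b c
      funext x
      rw [ovr, ovr]
      by_cases hxS : x ∈ S
      · rw [dif_pos (hSE hxS), dif_pos hxS, ovE, dif_pos hxS]
      · rw [dif_neg hxS, ovr]
        by_cases hxE : x ∈ E
        · rw [dif_pos hxE, dif_pos hxE, ovE, dif_neg hxS]
        · rw [dif_neg hxE, dif_neg hxE]
    have e2 : ∀ b : E → Bool, ∑ c : S → Bool,
        (if H (ovr E z (ovE S b c)) then (1 : ℝ) else 0) ≤
        (if G (ovr E z b) then θ * (2 : ℝ) ^ S.card else 0) := by
      intro b
      have e3 : ∀ c : S → Bool, G (ovr S (ovr E z b) c) ↔ G (ovr E z b) := by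
        intro c
        apply hGS
        intro x hx
        have hx' : x ∉ S := hx
        rw [ovr, dif_neg hx']
      by_cases hb : G (ovr E z b)
      · rw [if_pos hb]
        refine le_trans (le_of_eq ?_) (hcount (ovr E z b))
        rw [Finset.card_filter]
        push_cast
        apply Finset.sum_congr rfl
        intro c _
        rw [hov]
        have h1 : H (ovr S (ovr E z b) c) ↔ Φ (ovr S (ovr E z b) c) := by
          rw [hH]
          exact ⟨fun h => h.2, fun h => ⟨(e3 c).mpr hb, h⟩⟩
        simp only [h1]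
      · rw [if_neg hb]
        apply le_of_eq
        apply Finset.sum_eq_zero
        intro c _
        rw [if_neg]
        intro h
        rw [hov, hH] at h
        exact hb ((e3 c).mp h.1)
    have e4 : (2 : ℝ) ^ S.card * ∑ b : E → Bool,
        (if H (ovr E z b) then (1 : ℝ) else 0) ≤
        ∑ b : E → Bool, (if G (ovr E z b) then θ * (2 : ℝ) ^ S.card else 0) := by
      rw [e1]
      exact Finset.sum_le_sum (fun b _ => e2 b)
    rw [← Finset.sum_filter, Finset.sum_const, nsmul_eq_mul, mul_one, ← Finset.sum_filter,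
      Finset.sum_const, nsmul_eq_mul] at e4
    have hp : (0 : ℝ) < (2 : ℝ) ^ S.card := by positivity
    nlinarith
  have e5 : ((univ.filter (fun b : E → Bool => H (ovr E z b))).card : ENNReal) =
      ENNReal.ofReal ((univ.filter (fun b : E → Bool => H (ovr E z b))).card : ℝ) :=
    (ENNReal.ofReal_natCast _).symm
  have e6 : ((univ.filter (fun b : E → Bool => G (ovr E z b))).card : ENNReal) =
      ENNReal.ofReal ((univ.filter (fun b : E → Bool => G (ovr E z b))).card : ℝ) :=
    (ENNReal.ofReal_natCast _).symm
  rw [e5, e6, ← ENNReal.ofReal_mul hθ]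
  exact ENNReal.ofReal_le_ofReal key

end Pool.Agent.Helper80.CS
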