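import Pool.Agent.Helper80.CS.NulRow

/-!
Project CS, row EMR: probability that a row is empty.
-/

namespace Pool.Agent.Helper80.CS

open Classical Finset
open Pool.Agent.Helper62.CS

theorem mem_Vf {T : Lang} {n : ℕ} {v : Str} : v ∈ Vf T n ↔ v.length = 2 * n ∧ v.reverse ∈ T := by
  unfold Vf
  rw [Finset.mem_filter, mem_Qf]

theorem count_blocks {ι V : Type} [Fintype ι] [DecidableEq ι] [Fintype V] (n : ℕ) (e : V × Fin n → ι)
    (he : Function.Injective e) (Φ : (ι → Bool) → Prop) [DecidablePred Φ]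
    (hΦ : ∀ b, Φ b → ∀ v, (fun t => b (e (v, t))) ≠ fun _ => true) :
    ((univ.filter (fun b : ι → Bool => Φ b)).card : ℝ) ≤
      (1 - (1 / 2 : ℝ) ^ n) ^ Fintype.card V * (2 : ℝ) ^ Fintype.card ι := by
  obtain ⟨C, hC⟩ : ∃ C : Finset ι, C = univ \ univ.image e := ⟨_, rfl⟩
  have hCc : C.card + Fintype.card V * n = Fintype.card ι := by
    have h1 : (univ.image e).card = Fintype.card V * n := by
      rw [Finset.card_image_of_injective _ he, Finset.card_univ, Fintype.card_prod, Fintype.card_fin]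
    have h2 := Finset.card_sdiff_add_card_eq_card (Finset.subset_univ (univ.image e))
    rw [← hC, h1, Finset.card_univ] at h2
    exact h2
  let Ψ : (ι → Bool) → (V → Fin n → Bool) × (C → Bool) :=
    fun b => (fun v t => b (e (v, t)), fun x => b x)
  have hinj : Function.Injective Ψ := by
    intro b b' h
    have h1 : (Ψ b).1 = (Ψ b').1 := by rw [h]
    have h2 : (Ψ b).2 = (Ψ b').2 := by rw [h]
    funext x
    by_cases hx : x ∈ C
    · exact congrFun h2 ⟨x, hx⟩
    · have hx' : x ∈ univ.image e := by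
        by_contra hc
        apply hx
        rw [hC, Finset.mem_sdiff]
        exact ⟨Finset.mem_univ _, hc⟩
      rw [Finset.mem_image] at hx'
      obtain ⟨⟨v, t⟩, _, rfl⟩ := hx'
      exact congrFun (congrFun h1 v) t
  obtain ⟨S, hS⟩ : ∃ S : Finset (Fin n → Bool), S = univ.erase (fun _ => true) := ⟨_, rfl⟩
  have hScard : S.card = 2 ^ n - 1 := by
    rw [hS, Finset.card_erase_of_mem (Finset.mem_univ _), Finset.card_univ, Fintype.card_fun,
      Fintype.card_bool, Fintype.card_fin]
  have hle : (univ.filter (fun b : ι → Bool => Φ b)).card ≤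
      (2 ^ n - 1) ^ Fintype.card V * 2 ^ C.card := by
    have h1 : (univ.filter (fun b : ι → Bool => Φ b)).card ≤
        ((Fintype.piFinset (fun _ : V => S)) ×ˢ (univ : Finset (C → Bool))).card := by
      apply Finset.card_le_card_of_injOn Ψ
      · intro b hb
        rw [Finset.mem_coe, Finset.mem_filter] at hb
        rw [Finset.mem_coe, Finset.mem_product, Fintype.mem_piFinset]
        refine ⟨fun v => ?_, Finset.mem_univ _⟩
        rw [hS, Finset.mem_erase]
        exact ⟨hΦ b hb.2 v, Finset.mem_univ _⟩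
      · exact hinj.injOn
    refine le_trans h1 (le_of_eq ?_)
    rw [Finset.card_product, Fintype.card_piFinset, Finset.prod_const, hScard, Finset.card_univ,
      Finset.card_univ, Fintype.card_fun, Fintype.card_bool, Fintype.card_coe]
  have hle' : ((univ.filter (fun b : ι → Bool => Φ b)).card : ℝ) ≤
      ((2 : ℝ) ^ n - 1) ^ Fintype.card V * (2 : ℝ) ^ C.card := by
    have h2 : ((2 ^ n - 1 : ℕ) : ℝ) = (2 : ℝ) ^ n - 1 := by
      rw [Nat.cast_sub Nat.one_le_two_pow]; push_cast; rfl
    calc ((univ.filter (fun b : ι → Bool => Φ b)).card : ℝ) ≤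
        (((2 ^ n - 1) ^ Fintype.card V * 2 ^ C.card : ℕ) : ℝ) := by exact_mod_cast hle
      _ = ((2 : ℝ) ^ n - 1) ^ Fintype.card V * (2 : ℝ) ^ C.card := by
          rw [Nat.cast_mul, Nat.cast_pow, h2]; push_cast; rfl
  refine le_trans hle' (le_of_eq ?_)
  have h3 : (2 : ℝ) ^ n - 1 = (1 - (1 / 2 : ℝ) ^ n) * (2 : ℝ) ^ n := by
    rw [sub_mul, ← mul_pow]; norm_num
  rw [h3, mul_pow, ← hCc, pow_add, mul_assoc, ← pow_mul, mul_comm n]
  ring

theorem st_EMR (hCOD : ST_COD) : ST_EMR := by
  intro T n hn q hq R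
  have hqn : q.length = n := mem_Qf.mp hq
  have hmem : ∀ (v : Vf T n) (t : Fin n), code q v t ∈ blk T n := by
    intro v t
    have hv := v.2
    rw [mem_Vf] at hv
    exact code_mem_blk hqn hv.1 hv.2 t.2
  let e : (Vf T n) × Fin n → blk T n := fun p => ⟨code q p.1 p.2, hmem p.1 p.2⟩
  have he : Function.Injective e := by
    rintro ⟨v, t⟩ ⟨v', t'⟩ h
    have hv := v.2
    have hv' := v'.2
    rw [mem_Vf] at hv hv'
    have h1 : code q v t = code q v' t' := congrArg Subtype.val h
    have h2 := hCOD.1 q v q v' t t' (by rw [hv.1, hqn]) (by rw [hv'.1, hqn]) h1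
    have h3 : v = v' := Subtype.ext h2.2.1
    have h4 : t = t' := Fin.ext h2.2.2
    rw [h3, h4]
  have h1 := count_blocks n e he (fun b => q ∉ Aset T (ovr (blk T n) R b)) (by
    intro b hb v hall
    apply hb
    have hv := v.2
    rw [mem_Vf] at hv
    refine ⟨v, by rw [hv.1, hqn], hv.2, fun t ht => ?_⟩
    have ht' : t < n := by rw [← hqn]; exact ht
    have h2 := congrFun hall ⟨t, ht'⟩
    rw [ovr, dif_pos (hmem v ⟨t, ht'⟩)]
    exact h2)
  rw [Fintype.card_coe, Fintype.card_coe] at h1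
  exact h1

end Pool.Agent.Helper80.CS
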